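import Pool.Agent.H95.Nor

set_option autoImplicit false
open Pool.Agent.H95.Nor

theorem Pool.Agent.Results.MP_6eafb7_an.Pos.result (n : ℕ) (x : ℝ) (k : ℕ) (hk : 2 * k ≤ n) :
    0 ≤ α n k x ∧ 0 ≤ β n k x :=
  Pool.Agent.H95.Nor.main n x k hk
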